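import Pool.Agent.W166.Gnp.MainB
import Pool.Agent.W166.Gnp.Thr

set_option autoImplicit false

/-! # A cloud-forest graph that is not thundercloud-forest, with chromatic threshold at least `1/2`

`H0` has ten vertices: `t₁ = 0`, `t₂ = 1`, leaves `2, ..., 6`, cloud `7, 8, 9`; `t₁` is joined to
`t₂, 2, 3`, `t₂` to `4, 5, 6`, and every leaf to every vertex of the cloud.  It has `m₂(H0) = 5/2`,
and `δ_χ(H0, p) ≥ 1/2` whenever `n^{-1/2} ≪ p ≪ n^{-7/19}`. -/

namespace Pool.Agent.Results.MP_4bfc47_co.Disproof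

open Filter Topology

/-- the 2-density: the supremum of `(e(F) - 1) / (v(F) - 2)` over the subgraphs `F` of `H` with at
least three vertices -/
noncomputable def m2 {k : ℕ} (H : SimpleGraph (Fin k)) : ℝ :=
  sSup {r : ℝ | ∃ F : H.Subgraph, 3 ≤ F.verts.ncard ∧
    r = ((F.edgeSet.ncard : ℝ) - 1) / ((F.verts.ncard : ℝ) - 2)}

/-- the neighbours of `v` outside `I`; for `v ∉ I` these are its neighbours in `F = H - I` -/
def nbF {V : Type} (H : SimpleGraph V) (I : Set V) (v : V) : Set V := {w | w ∉ I ∧ H.Adj v w}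

/-- `I` is a cloud witnessing that `H` is a cloud-forest graph: `I` is independent, `F = H - I` is a
forest, every edge between `I` and `F` ends at a leaf or an isolated vertex of `F`, and no two
adjacent leaves of `F` both have neighbours in `I`. -/
structure IsCloud {V : Type} (H : SimpleGraph V) (I : Set V) : Prop where
  independent : ∀ x ∈ I, ∀ y ∈ I, ¬ H.Adj x y
  forest : (H.induce Iᶜ).IsAcyclic
  ends : ∀ x ∈ I, ∀ v, v ∉ I → H.Adj x v → (nbF H I v).ncard = 0 ∨ (nbF H I v).ncard = 1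
  leaves : ∀ u v, u ∉ I → v ∉ I → H.Adj u v → (nbF H I u).ncard = 1 → (nbF H I v).ncard = 1 →
    ¬ ((∃ x ∈ I, H.Adj x u) ∧ ∃ y ∈ I, H.Adj y v)

/-- cloud-forest graphs -/
def CloudForest {V : Type} (H : SimpleGraph V) : Prop := ∃ I : Set V, IsCloud H I

/-- thundercloud-forest graphs: some witnessing cloud meets every odd cycle in at least two
vertices -/
def ThundercloudForest {V : Type} (H : SimpleGraph V) : Prop :=
  ∃ I : Set V, IsCloud H I ∧ ∀ (v : V) (c : H.Walk v v), c.IsCycle → Odd c.length →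
    2 ≤ {x | x ∈ I ∧ x ∈ c.support}.ncard

open Classical in
/-- the probability that the random graph `G(n,p)` has the property `A` -/
noncomputable def gnp (n : ℕ) (p : ℝ) (A : SimpleGraph (Fin n) → Prop) : ℝ :=
  ∑ Γ : SimpleGraph (Fin n),
    if A Γ then p ^ Γ.edgeSet.ncard * (1 - p) ^ (n.choose 2 - Γ.edgeSet.ncard) else 0

/-- the chromatic threshold `δ_χ(H,p)` -/
noncomputable def chromThreshold {k : ℕ} (H : SimpleGraph (Fin k)) (p : ℕ → ℝ) : ℝ :=
  sInf {d : ℝ | 0 < d ∧ ∃ C : ℕ, 0 < C ∧ Tendsto (fun n : ℕ => gnp n (p n) (fun Γ =>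
    ∀ G : SimpleGraph (Fin n), G ≤ Γ → ¬ H.IsContained G →
      (∀ v, d * p n * n ≤ ((G.neighborSet v).ncard : ℝ)) → G.Colorable C)) atTop (𝓝 1)}

/-- the range of Q1: `max {n^{-1/m₂(H)}, n^{-1/2}} ≪ p ≪ 1` -/
structure InRange {k : ℕ} (H : SimpleGraph (Fin k)) (p : ℕ → ℝ) : Prop where
  prob : ∀ n, 0 < p n ∧ p n ≤ 1
  m2 : Tendsto (fun n : ℕ => (n : ℝ) ^ (-(1 / m2 H)) / p n) atTop (𝓝 0)
  half : Tendsto (fun n : ℕ => (n : ℝ) ^ (-(1 / 2) : ℝ) / p n) atTop (𝓝 0)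
  small : Tendsto p atTop (𝓝 0)

open Pool.Agent.W166.Gnp

lemma gnp_eq (n : ℕ) (p : ℝ) (A : SimpleGraph (Fin n) → Prop) : gnp n p A =
    Pr (allE n) p (fun S => A (SimpleGraph.fromEdgeSet (S : Set (Sym2 (Fin n))))) := by
  classical
  unfold gnp
  exact sum_eq_Pr p A

lemma ncard_coe {A : Finset (Fin 10)} (v : Fin 10) :
    (nbF H0 (A : Set (Fin 10)) v).ncard = dg A v := by
  unfold nbF dg
  rw [← Set.ncard_coe_finset]
  congr 1
  ext w
  simp

lemma no_C4 {I : Set (Fin 10)} (h : (H0.induce Iᶜ).IsAcyclic) (a b c d : Fin 10) (ha : a ∉ I)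
    (hb : b ∉ I) (hc : c ∉ I) (hd : d ∉ I) (hab : H0.Adj a b) (hbc : H0.Adj b c)
    (hcd : H0.Adj c d) (hda : H0.Adj d a) (hac : a ≠ c) (hbd : b ≠ d) : False := by
  have hab' : (H0.induce Iᶜ).Adj ⟨a, ha⟩ ⟨b, hb⟩ := hab
  have hbc' : (H0.induce Iᶜ).Adj ⟨b, hb⟩ ⟨c, hc⟩ := hbc
  have hcd' : (H0.induce Iᶜ).Adj ⟨c, hc⟩ ⟨d, hd⟩ := hcd
  have hda' : (H0.induce Iᶜ).Adj ⟨d, hd⟩ ⟨a, ha⟩ := hda
  apply h (SimpleGraph.Walk.cons hab' (SimpleGraph.Walk.cons hbc' (SimpleGraph.Walk.cons hcd'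
    (SimpleGraph.Walk.cons hda' SimpleGraph.Walk.nil))))
  have e1 := hab.ne
  have e2 := hbc.ne
  have e3 := hcd.ne
  have e4 := hda.ne
  rw [SimpleGraph.Walk.cons_isCycle_iff]
  refine ⟨?_, ?_⟩
  · rw [SimpleGraph.Walk.isPath_def]
    simp [e2, e3, e4, hbd, e1.symm, hac.symm]
  · simp [e1, e2, hac, hbd, e1.symm, e4.symm]

/-- the only cloud of `H0` -/
lemma cloud_unique {I : Set (Fin 10)} (h : IsCloud H0 I) : I = {7, 8, 9} := by
  obtain ⟨A, rfl⟩ : ∃ A : Finset (Fin 10), (A : Set (Fin 10)) = I :=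
    ⟨I.toFinite.toFinset, Set.Finite.coe_toFinset _⟩
  have hA := H0_only A (fun x hx y hy => h.independent x hx y hy) (by
    intro i hi i' hi' hlt l hl l' hl' hlt'
    by_contra hno
    push Not at hno
    obtain ⟨h1, h2, h3, h4⟩ := hno
    have hadj : ∀ i ∈ ({7, 8, 9} : Finset (Fin 10)), ∀ l ∈ ({2, 3, 4, 5, 6} : Finset (Fin 10)),
        H0.Adj i l := by decide
    exact no_C4 h.forest i l i' l' (by simpa using h1) (by simpa using h3) (by simpa using h2)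
      (by simpa using h4) (hadj i hi l hl) (hadj i' hi' l hl).symm (hadj i' hi' l' hl')
      (hadj i hi l' hl').symm hlt.ne hlt'.ne) (by
    intro x hx v hv hxv
    have := h.ends x hx v (by simpa using hv) hxv
    rw [ncard_coe] at this
    omega) (by
    intro u v hu hv huv h1 h2
    have := h.leaves u v (by simpa using hu) (by simpa using hv) huv
    rw [ncard_coe, ncard_coe] at this
    exact this h1 h2)
  rw [hA]
  simp

lemma acyclic_rest : (H0.induce ((({7, 8, 9} : Finset (Fin 10)) : Set (Fin 10))ᶜ)).IsAcyclic := by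
  rw [SimpleGraph.isAcyclic_iff_free_cycleGraph]
  intro l hl ⟨g⟩
  obtain ⟨l, rfl⟩ : ∃ l', l = l' + 3 := ⟨l - 3, by omega⟩
  have key : ∀ x w w' : Fin 10, (x ∉ ({7, 8, 9} : Finset (Fin 10)) ∧
      w ∉ ({7, 8, 9} : Finset (Fin 10)) ∧ w' ∉ ({7, 8, 9} : Finset (Fin 10)) ∧ w ≠ w' ∧
      H0.Adj x w ∧ H0.Adj x w') → x.val ≤ 1 := by decide
  have h2 : ∀ i, (g i).1.val ≤ 1 := by
    intro i
    have hd := SimpleGraph.cycleGraph_degree_three_le (v := i)
    rw [← SimpleGraph.card_neighborFinset_eq_degree] at hd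
    obtain ⟨a, b, hab, hN⟩ := Finset.card_eq_two.mp hd
    have ha : (SimpleGraph.cycleGraph (l + 3)).Adj i a := by
      rw [← SimpleGraph.mem_neighborFinset, hN]; simp
    have hb : (SimpleGraph.cycleGraph (l + 3)).Adj i b := by
      rw [← SimpleGraph.mem_neighborFinset, hN]; simp
    have ha' := g.toHom.map_adj ha
    have hb' := g.toHom.map_adj hb
    exact key (g i).1 (g a).1 (g b).1 ⟨by simpa using (g i).2, by simpa using (g a).2,
      by simpa using (g b).2, fun h => hab (g.injective (Subtype.ext h)), ha', hb'⟩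
  have h3 : ∀ i j, i ≠ j → (g i).1.val ≠ (g j).1.val := fun i j hij h =>
    hij (g.injective (Subtype.ext (Fin.ext h)))
  have d1 : (⟨0, by omega⟩ : Fin (l + 3)) ≠ ⟨1, by omega⟩ := by simp
  have d2 : (⟨0, by omega⟩ : Fin (l + 3)) ≠ ⟨2, by omega⟩ := by simp
  have d3 : (⟨1, by omega⟩ : Fin (l + 3)) ≠ ⟨2, by omega⟩ := by simp
  have a1 := h3 _ _ d1
  have a2 := h3 _ _ d2
  have a3 := h3 _ _ d3
  have b1 := h2 ⟨0, by omega⟩
  have b2 := h2 ⟨1, by omega⟩
  have b3 := h2 ⟨2, by omega⟩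
  omega

lemma cloud_forest : CloudForest H0 := by
  refine ⟨(({7, 8, 9} : Finset (Fin 10)) : Set (Fin 10)), ?_⟩
  obtain ⟨h1, h3, h4⟩ := H0_cloud
  refine ⟨fun x hx y hy => h1 x hx y hy, acyclic_rest, ?_, ?_⟩
  · intro x hx v hv hxv
    have := h3 x hx v (by simpa using hv) hxv
    rw [ncard_coe]
    omega
  · intro u v hu hv huv hu1 hv1
    rw [ncard_coe] at hu1 hv1
    exact h4 u v (by simpa using hu) (by simpa using hv) huv hu1 hv1

lemma not_thundercloud : ¬ ThundercloudForest H0 := by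
  rintro ⟨I, hI, hcyc⟩
  rw [cloud_unique hI] at hcyc
  have e1 : H0.Adj 7 2 := by decide
  have e2 : H0.Adj 2 0 := by decide
  have e3 : H0.Adj 0 1 := by decide
  have e4 : H0.Adj 1 4 := by decide
  have e5 : H0.Adj 4 7 := by decide
  have h := hcyc 7 (SimpleGraph.Walk.cons e1 (SimpleGraph.Walk.cons e2 (SimpleGraph.Walk.cons e3
    (SimpleGraph.Walk.cons e4 (SimpleGraph.Walk.cons e5 SimpleGraph.Walk.nil))))) (by
    rw [SimpleGraph.Walk.cons_isCycle_iff]
    refine ⟨?_, ?_⟩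
    · rw [SimpleGraph.Walk.isPath_def]
      simp
    · simp) (by simp; decide)
  have h2 : {x : Fin 10 | x ∈ ({7, 8, 9} : Set (Fin 10)) ∧ x ∈ (SimpleGraph.Walk.cons e1
      (SimpleGraph.Walk.cons e2 (SimpleGraph.Walk.cons e3
      (SimpleGraph.Walk.cons e4 (SimpleGraph.Walk.cons e5 SimpleGraph.Walk.nil))))).support} =
      {7} := by
    ext x
    simp only [SimpleGraph.Walk.support_cons, SimpleGraph.Walk.support_nil, List.mem_cons,
      List.not_mem_nil, or_false, Set.mem_ofPred_eq, Set.mem_insert_iff, Set.mem_singleton_iff]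
    revert x
    decide
  rw [h2, Set.ncard_singleton] at h
  omega

lemma sub_bound (F : H0.Subgraph) (hF : 3 ≤ F.verts.ncard) :
    2 * F.edgeSet.ncard + 8 ≤ 5 * F.verts.ncard := by
  classical
  obtain ⟨A, hA⟩ : ∃ A : Finset (Fin 10), (A : Set (Fin 10)) = F.verts :=
    ⟨F.verts.toFinite.toFinset, Set.Finite.coe_toFinset _⟩
  rw [← hA, Set.ncard_coe_finset] at hF ⊢
  have h1 := H0_dens A hF
  have h2 : F.edgeSet ⊆ (((E21.filter (fun q => q.1 ∈ A ∧ q.2 ∈ A)).image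
      (fun q => s(q.1, q.2)) : Finset (Sym2 (Fin 10))) : Set (Sym2 (Fin 10))) := by
    intro e he
    induction e with
    | _ a b =>
      rw [SimpleGraph.Subgraph.mem_edgeSet] at he
      have ha : a ∈ A := by
        have := F.edge_vert he
        rw [← hA] at this
        exact this
      have hb : b ∈ A := by
        have := F.edge_vert he.symm
        rw [← hA] at this
        exact this
      have hab : H0.Adj a b := F.adj_sub he
      unfold H0 at hab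
      rw [SimpleGraph.fromRel_adj] at hab
      rw [Finset.mem_coe, Finset.mem_image]
      rcases hab.2 with h | h
      · exact ⟨(a, b), by simp [E21, h, ha, hb], rfl⟩
      · exact ⟨(b, a), by simp [E21, h, ha, hb], Sym2.eq_swap⟩
  have h3 : F.edgeSet.ncard ≤ (E21.filter (fun q => q.1 ∈ A ∧ q.2 ∈ A)).card := by
    refine (Set.ncard_le_ncard h2 (Finset.finite_toSet _)).trans ?_
    rw [Set.ncard_coe_finset]
    exact Finset.card_image_le
  omega

lemma m2_H0 : m2 H0 = 5 / 2 := by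
  have hub : ∀ r ∈ {r : ℝ | ∃ F : H0.Subgraph, 3 ≤ F.verts.ncard ∧
      r = ((F.edgeSet.ncard : ℝ) - 1) / ((F.verts.ncard : ℝ) - 2)}, r ≤ 5 / 2 := by
    rintro r ⟨F, hF, rfl⟩
    have h1 := sub_bound F hF
    have h2 : 2 * (F.edgeSet.ncard : ℝ) + 8 ≤ 5 * F.verts.ncard := by exact_mod_cast h1
    have h3 : (3 : ℝ) ≤ F.verts.ncard := by exact_mod_cast hF
    rw [div_le_iff₀ (by linarith)]
    linarith
  have hmem : (5 / 2 : ℝ) ∈ {r : ℝ | ∃ F : H0.Subgraph, 3 ≤ F.verts.ncard ∧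
      r = ((F.edgeSet.ncard : ℝ) - 1) / ((F.verts.ncard : ℝ) - 2)} := by
    refine ⟨⊤, ?_, ?_⟩
    · simp [Set.ncard_univ]
    · have h1 : (⊤ : H0.Subgraph).verts.ncard = 10 := by simp [Set.ncard_univ]
      have h2 : (⊤ : H0.Subgraph).edgeSet.ncard = 21 := by
        rw [SimpleGraph.Subgraph.edgeSet_top, ← SimpleGraph.coe_edgeFinset, Set.ncard_coe_finset]
        exact H0_edges
      rw [h1, h2]
      norm_num
  unfold m2
  exact le_antisymm (csSup_le ⟨_, hmem⟩ hub) (le_csSup ⟨_, hub⟩ hmem)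

/-- `δ_χ(H0, p) ≥ 1/2` for `n^{-1/2} ≪ p ≪ n^{-7/19}` -/
lemma threshold_H0 (p : ℕ → ℝ) (hp : ∀ n, 0 < p n ∧ p n ≤ 1)
    (h1 : Tendsto (fun n : ℕ => (n : ℝ) ^ (-(1 / 2) : ℝ) / p n) atTop (𝓝 0))
    (h2 : Tendsto (fun n : ℕ => p n / (n : ℝ) ^ (-(7 / 19) : ℝ)) atTop (𝓝 0)) :
    1 / 2 ≤ chromThreshold H0 p := by
  have hlarge : ∀ A : ℝ, 0 < A → ∀ᶠ n : ℕ in atTop, A ≤ p n ^ 2 * n := by
    intro A hA
    have hs : 0 < 1 / Real.sqrt A := by positivity
    filter_upwards [h1.eventually (gt_mem_nhds hs), eventually_ge_atTop 1] with n hn hn1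
    have hn0 : (0 : ℝ) < n := by exact_mod_cast hn1
    rw [div_lt_iff₀ (hp n).1] at hn
    have h3 : (n : ℝ) ^ (-(1 / 2) : ℝ) = 1 / Real.sqrt n := by
      rw [Real.rpow_neg hn0.le, ← Real.sqrt_eq_rpow, one_div]
    rw [h3, one_div_mul_eq_div, div_lt_div_iff₀ (Real.sqrt_pos.mpr hn0) (Real.sqrt_pos.mpr hA),
      one_mul] at hn
    have h4 : Real.sqrt A ^ 2 ≤ (p n * Real.sqrt n) ^ 2 :=
      pow_le_pow_left₀ (Real.sqrt_nonneg _) hn.le 2
    rw [mul_pow, Real.sq_sqrt hA.le, Real.sq_sqrt hn0.le] at h4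
    exact h4
  have hsmall : ∀ a : ℝ, 0 < a → ∀ᶠ n : ℕ in atTop, (n : ℝ) ^ 7 * p n ^ 19 ≤ a := by
    intro a ha
    have hs : 0 < min a 1 := lt_min ha one_pos
    filter_upwards [h2.eventually (gt_mem_nhds hs), eventually_ge_atTop 1] with n hn hn1
    have hn0 : (0 : ℝ) < n := by exact_mod_cast hn1
    have hpow : (0 : ℝ) < (n : ℝ) ^ (-(7 / 19) : ℝ) := by positivity
    have hx0 : 0 ≤ p n / (n : ℝ) ^ (-(7 / 19) : ℝ) := by have := (hp n).1; positivity
    have h3 : (n : ℝ) ^ 7 * p n ^ 19 = (p n / (n : ℝ) ^ (-(7 / 19) : ℝ)) ^ 19 := by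
      rw [div_pow, ← Real.rpow_natCast ((n : ℝ) ^ (-(7 / 19) : ℝ)) 19, ← Real.rpow_mul hn0.le]
      have h5 : (-(7 / 19) : ℝ) * ((19 : ℕ) : ℝ) = -((7 : ℕ) : ℝ) := by norm_num
      rw [h5, Real.rpow_neg hn0.le, Real.rpow_natCast, div_inv_eq_mul]
      ring
    rw [h3]
    have h4 : p n / (n : ℝ) ^ (-(7 / 19) : ℝ) ≤ 1 := hn.le.trans (min_le_right _ _)
    calc (p n / (n : ℝ) ^ (-(7 / 19) : ℝ)) ^ 19 ≤ (p n / (n : ℝ) ^ (-(7 / 19) : ℝ)) ^ 1 :=
          pow_le_pow_of_le_one hx0 h4 (by norm_num)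
      _ ≤ a := by rw [pow_one]; exact hn.le.trans (min_le_left _ _)
  have hp0 : ∀ p0 : ℝ, 0 < p0 → ∀ᶠ n : ℕ in atTop, p n ≤ p0 := by
    intro p0 hp0
    filter_upwards [h2.eventually (gt_mem_nhds hp0), eventually_ge_atTop 1] with n hn hn1
    have hn0 : (0 : ℝ) < n := by exact_mod_cast hn1
    have hn1' : (1 : ℝ) ≤ n := by exact_mod_cast hn1
    have hpow : (0 : ℝ) < (n : ℝ) ^ (-(7 / 19) : ℝ) := by positivity
    have hpow1 : (n : ℝ) ^ (-(7 / 19) : ℝ) ≤ 1 :=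
      Real.rpow_le_one_of_one_le_of_nonpos hn1' (by norm_num)
    rw [div_lt_iff₀ hpow] at hn
    nlinarith
  refine thr_lower H0 p hp (fun n A => gnp n (p n) A) (fun n A => gnp_eq n (p n) A) (1 / 2) ?_ ?_
  · intro C ε hε
    obtain ⟨p0, A, a, n0, hp0', hA, ha, hmain⟩ := mainB C ε hε (1 / 4) (by norm_num)
    filter_upwards [hlarge A hA, hsmall a ha, hp0 p0 hp0', eventually_ge_atTop n0] with n b1 b2 b3 b4
    exact hmain n b4 (p n) (hp n).1 b3 b1 b2
  · have h3 : ∀ᶠ n : ℕ in atTop, (n : ℝ) ≤ p n * (n : ℝ) ^ 2 := by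
      filter_upwards [hlarge 1 one_pos] with n hn
      have h4 := (hp n).1
      have h5 := (hp n).2
      have h6 : p n ^ 2 * n ≤ p n * n := by
        have : (0 : ℝ) ≤ n := Nat.cast_nonneg n
        nlinarith [mul_nonneg h4.le this, mul_nonneg (mul_nonneg h4.le this) (sub_nonneg.mpr h5)]
      have h7 : 1 ≤ p n * n := hn.trans h6
      have : (0 : ℝ) ≤ n := Nat.cast_nonneg n
      nlinarith
    exact tendsto_atTop_mono' atTop h3 tendsto_natCast_atTop_atTop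

/-- **Disproof of Q1.**  There is a cloud-forest graph `H` that is not thundercloud-forest (with ten
vertices, `21` edges and `m₂(H) = 5/2`) such that `δ_χ(H,p) ≥ 1/2` for every `p` in the range of Q1
with `p ≪ n^{-7/19}`, and there are such `p`; in particular `δ_χ(H,p) ≠ 1/3` for some `p` in the
range. -/
theorem result : ∃ H : SimpleGraph (Fin 10), H.edgeSet.ncard = 21 ∧ m2 H = 5 / 2 ∧
    CloudForest H ∧ ¬ ThundercloudForest H ∧
    (∀ p : ℕ → ℝ, InRange H p →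
      Tendsto (fun n : ℕ => p n / (n : ℝ) ^ (-(7 / 19) : ℝ)) atTop (𝓝 0) →
      1 / 2 ≤ chromThreshold H p) ∧
    ∃ p : ℕ → ℝ, InRange H p ∧
      Tendsto (fun n : ℕ => p n / (n : ℝ) ^ (-(7 / 19) : ℝ)) atTop (𝓝 0) ∧
      chromThreshold H p ≠ 1 / 3 := by
  have h21 : H0.edgeSet.ncard = 21 := by
    rw [← SimpleGraph.coe_edgeFinset, Set.ncard_coe_finset]
    exact H0_edges
  refine ⟨H0, h21, m2_H0, cloud_forest, not_thundercloud,
    fun p hp h => threshold_H0 p hp.prob hp.half h, ?_⟩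
  have hpos : ∀ n : ℕ, 0 < (max (n : ℝ) 1) ^ (-(3 / 8) : ℝ) := fun n => by positivity
  have hcmp : ∀ c : ℝ, c < 0 → Tendsto (fun n : ℕ => (n : ℝ) ^ c) atTop (𝓝 0) := by
    intro c hc
    have := (tendsto_rpow_neg_atTop (y := -c) (by linarith)).comp
      (tendsto_natCast_atTop_atTop (R := ℝ))
    rw [neg_neg] at this
    exact this
  have hprob : ∀ n : ℕ, 0 < (max (n : ℝ) 1) ^ (-(3 / 8) : ℝ) ∧ (max (n : ℝ) 1) ^ (-(3 / 8) : ℝ) ≤ 1 :=
    fun n => ⟨hpos n, Real.rpow_le_one_of_one_le_of_nonpos (le_max_right _ _) (by norm_num)⟩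
  have hev : ∀ c : ℝ, ∀ᶠ n : ℕ in atTop, (n : ℝ) ^ (c + 3 / 8) =
      (n : ℝ) ^ c / (max (n : ℝ) 1) ^ (-(3 / 8) : ℝ) := by
    intro c
    filter_upwards [eventually_ge_atTop 1] with n hn
    have hn1 : (1 : ℝ) ≤ n := by exact_mod_cast hn
    rw [max_eq_left hn1, ← Real.rpow_sub (by linarith)]
    congr 1
    ring
  have hhalf : Tendsto (fun n : ℕ => (n : ℝ) ^ (-(1 / 2) : ℝ) / (max (n : ℝ) 1) ^ (-(3 / 8) : ℝ))
      atTop (𝓝 0) :=
    (hcmp (-(1 / 2) + 3 / 8) (by norm_num)).congr' (hev _)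
  have hupper : Tendsto (fun n : ℕ => (max (n : ℝ) 1) ^ (-(3 / 8) : ℝ) / (n : ℝ) ^ (-(7 / 19) : ℝ))
      atTop (𝓝 0) := by
    refine (hcmp (-(3 / 8) + 7 / 19) (by norm_num)).congr' ?_
    filter_upwards [eventually_ge_atTop 1] with n hn
    have hn1 : (1 : ℝ) ≤ n := by exact_mod_cast hn
    rw [max_eq_left hn1, ← Real.rpow_sub (by linarith)]
    congr 1
    ring
  refine ⟨fun n => (max (n : ℝ) 1) ^ (-(3 / 8) : ℝ), ⟨hprob, ?_, hhalf, ?_⟩, hupper, ?_⟩
  · rw [m2_H0]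
    exact (hcmp (-(1 / (5 / 2)) + 3 / 8) (by norm_num)).congr' (hev _)
  · refine (hcmp (-(3 / 8)) (by norm_num)).congr' ?_
    filter_upwards [eventually_ge_atTop 1] with n hn
    have hn1 : (1 : ℝ) ≤ n := by exact_mod_cast hn
    rw [max_eq_left hn1]
  · have := threshold_H0 _ hprob hhalf hupper
    intro h
    rw [h] at this
    norm_num at this

end Pool.Agent.Results.MP_4bfc47_co.Disproof
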